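import Pool.Agent.MP_b9875a_co.H33.Walk

/-!
Row NET: the machine builds a transitive tournament.
-/

set_option autoImplicit false

namespace Pool.Agent.MP_b9875a_co.H33

open Finset Pool.Agent.MP_b9875a_co.H99.PL

variable {V : Type} [DecidableEq V]

/-- The machine with a single resource. -/
structure UM (U : Finset V → Finset (V × V) → (V → ℕ) → ℕ → Prop) (l K κ T : ℕ) : Prop where
  add : ∀ A F p R, U A F p (R + 1) → ∃ z ∈ A, ∃ A' F' p', A' ⊆ A.erase z ∧ F' ⊆ F ∧ K ≤ p' z ∧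
    (∀ x, p x ≤ p' x) ∧ U A' F' p' R
  res : ∀ A F p R (Y : Finset V) (j : ℕ), j ≤ l → Y.card = 2 ^ j → U A F p (R + 2 ^ j) →
    (∀ y ∈ Y, κ ≤ p y) → ∃ HL HR A' F' p', HL ∪ HR ⊆ F ∧ Disjoint HL HR ∧
      Linker HL A Y (2 * (2 * 2 ^ j * T)) ∧ Linker HR A' Y (2 * (2 * 2 ^ j * T)) ∧ A' ⊆ A ∧
      F' ⊆ F \ (HL ∪ HR) ∧ (∀ x, x ∉ Y → p x ≤ p' x) ∧ (∀ x, p x ≤ p' x + κ) ∧ U A' F' p' R

lemma linker_mono {H : Finset (V × V)} {A A' Y : Finset V} {a : ℕ} (h : Linker H A Y a)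
    (hA : A' ⊆ A) : Linker H A' Y a :=
  fun ι T s c h1 => h ι T s c fun i hi => hA (h1 i hi)

lemma sub_two {F F1 F2 H H' : Finset (V × V)} (h1 : F1 ⊆ F \ H) (h2 : F2 ⊆ F1 \ H') :
    F2 ⊆ F \ (H ∪ H') := by
  intro e he
  have a1 := mem_sdiff.1 (h2 he)
  have a2 := mem_sdiff.1 (h1 a1.1)
  exact mem_sdiff.2 ⟨a2.1, fun h => (mem_union.1 h).elim a2.2 a1.2⟩

lemma um_of_mach {D : Finset (V × V)} {l M N K g d T R₀ : ℕ} (hm : Mach D N K g d) (hT : 0 < T)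
    (hM : 4 * T ≤ M) (hg : g ≤ M * 2 ^ l) (hN : R₀ ≤ N) (hd : 20 * M * R₀ ≤ d) :
    ∃ U : Finset V → Finset (V × V) → (V → ℕ) → ℕ → Prop,
      UM U l K (8 * T * 2 ^ l) T ∧ ∃ A p, U A D p R₀ := by
  obtain ⟨I, ⟨A₀, h0⟩, hadd, hres⟩ := hm
  refine ⟨fun A F p R => ∃ b n, 20 * M * R ≤ b ∧ n + R ≤ N ∧ I A F p b n, ⟨?_, ?_⟩,
    A₀, _, d, 0, hd, by omega, h0⟩
  · rintro A F p R ⟨b, n, h1, h2, h3⟩
    rw [mul_add] at h1
    obtain ⟨b', rfl⟩ : ∃ b', b = b' + 1 := ⟨b - 1, by omega⟩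
    obtain ⟨z, hz, A', F', p', a1, a2, a3, a4, a5⟩ := hadd A F p b' n h3 (by omega)
    exact ⟨z, hz, A', F', p', a1, a2, a3, a4, b', n + 1, by omega, by omega, a5⟩
  · rintro A F p R Y j hj hY ⟨b, n, h1, h2, h3⟩ hp
    have hs : 0 < 2 ^ j := by positivity
    have hY0 : Y.Nonempty := card_pos.1 (by omega)
    have hr : 2 ^ (l - j) * 2 ^ j = 2 ^ l := by
      rw [← pow_add]
      congr 1
      omega
    have hκ : 8 * T * 2 ^ l =
        2 ^ (l - j) * (2 * (2 * 2 ^ j * T)) + 2 ^ (l - j) * (2 * (2 * 2 ^ j * T)) := by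
      rw [← hr]
      ring
    have ha : 2 * (2 * 2 ^ j * T) ≤ M * 2 ^ j := by nlinarith
    have ha1 : 1 ≤ 2 * (2 * 2 ^ j * T) := Nat.succ_le_of_lt (by positivity)
    have hr1 : 1 ≤ 2 ^ (l - j) := Nat.succ_le_of_lt (by positivity)
    have hg' : g ≤ 2 ^ (l - j) * (M * 2 ^ j) := by
      rw [mul_left_comm, hr]
      exact hg
    have hMs : 2 ^ j ≤ M * 2 ^ j := Nat.le_mul_of_pos_left _ (by omega)
    rw [mul_add, mul_assoc 20 M (2 ^ j)] at h1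
    obtain ⟨b', rfl⟩ : ∃ b', b = b' + (3 * (M * 2 ^ j) + Y.card + 2) +
        (3 * (M * 2 ^ j) + Y.card + 2) :=
      ⟨b - (3 * (M * 2 ^ j) + Y.card + 2) - (3 * (M * 2 ^ j) + Y.card + 2), by omega⟩
    rw [hκ] at hp ⊢
    obtain ⟨H1, A1, F1, p1, a1, a2, a3, a4, a5, a6, a7⟩ := hres A F p _ n Y _ _ _ h3 hY0 ha1 ha
      hr1 hg' fun y hy => (Nat.le_add_right _ _).trans (hp y hy)
    obtain ⟨H2, A2, F2, p2, b1, b2, b3, b4, b5, b6, b7⟩ := hres A1 F1 p1 _ n Y _ _ _ a7 hY0 ha1 ha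
      hr1 hg' fun y hy => Nat.le_of_add_le_add_right ((hp y hy).trans (a6 y))
    refine ⟨H1, H2, A2, F2, p2, union_subset a1 (b1.trans (a4.trans sdiff_subset)),
      disjoint_sdiff.mono_right (b1.trans a4), a2, linker_mono b2 b3, b3.trans a3, sub_two a4 b4,
      fun x hx => (a5 x hx).trans (b5 x hx), fun x => ?_, b', n, by omega, by omega, b7⟩
    have := a6 x
    have := b6 x
    omega

variable {U : Finset V → Finset (V × V) → (V → ℕ) → ℕ → Prop} {l K κ T : ℕ}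

lemma add_many (hU : UM U l K κ T) {A : Finset V} {F : Finset (V × V)} {p : V → ℕ} (n : ℕ) :
    ∀ R, U A F p (R + n) → ∃ Y A' F' p', Y ⊆ A ∧ Y.card = n ∧ A' ⊆ A ∧ Disjoint Y A' ∧ F' ⊆ F ∧
      (∀ y ∈ Y, K ≤ p' y) ∧ (∀ x, p x ≤ p' x) ∧ U A' F' p' R := by
  induction n with
  | zero =>
    exact fun R h => ⟨∅, A, F, p, empty_subset _, rfl, subset_rfl, disjoint_empty_left _,
      subset_rfl, by simp, fun _ => le_rfl, h⟩
  | succ n ih =>
    intro R h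
    obtain ⟨Y, A1, F1, p1, a1, a2, a3, a4, a5, a6, a7, a8⟩ := ih (R + 1)
      (by rwa [add_assoc, add_comm 1 n])
    obtain ⟨z, hz, A2, F2, p2, b1, b2, b3, b4, b5⟩ := hU.add _ _ _ _ a8
    have hA : A2 ⊆ A1 := b1.trans (erase_subset _ _)
    refine ⟨insert z Y, A2, F2, p2, insert_subset (a3 hz) a1, ?_, hA.trans a3, ?_, b2.trans a5,
      fun y hy => ?_, fun x => (a7 x).trans (b4 x), b5⟩
    · rw [card_insert_of_notMem (disjoint_right.1 a4 hz), a2]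
    · rw [disjoint_insert_left]
      exact ⟨fun h' => notMem_erase z A1 (b1 h'), a4.mono_right hA⟩
    · rcases mem_insert.1 hy with h' | h'
      · exact h' ▸ b3
      · exact (a6 y h').trans (b4 y)

lemma net_aux (hp : ProjStmt) (hU : UM U l K κ T) (hT : 0 < T) (hK : κ ≤ K) {j : ℕ} (hj : j ≤ l)
    {A Q : Finset V} {F : Finset (V × V)} {p : V → ℕ} (hQ : Q.card = 2 ^ j)
    (hpQ : ∀ q ∈ Q, κ ≤ p q) (t : ℕ) : ∀ R, U A F p (R + 2 ^ j + t * (2 * 2 ^ j)) →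
    ∃ H A' F' p', H ⊆ F ∧ A' ⊆ A ∧ F' ⊆ F \ H ∧ (∀ x, x ∉ A → x ∉ Q → p x ≤ p' x) ∧
      (∀ x, x ∉ A → p x ≤ p' x + κ) ∧ U A' F' p' R ∧ ∀ P ⊆ A', P.card = Q.card →
        WS H P Q (2 * (2 * 2 ^ j * T)) (t + 1)
          ((1 - 1 / (4 * (6 * ((l : ℝ) + 1)))) ^ (t + 1) * Q.card) := by
  have hs : 0 < 2 ^ j := by positivity
  have hh : 0 < 2 * 2 ^ j * T := by positivity
  have hQ0 : Q.Nonempty := card_pos.1 (by omega)
  have hQl : Q.card ≤ 2 ^ l := hQ ▸ Nat.pow_le_pow_right (by norm_num) hj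
  induction t with
  | zero =>
    intro R h
    obtain ⟨HL, HR, A', F', p', a1, a2, a3, a4, a5, a6, a7, a8, a9⟩ := hU.res A F p R Q j hj hQ
      (by simpa using h) hpQ
    refine ⟨HL ∪ HR, A', F', p', a1, a5, a6, fun x _ => a7 x, fun x _ => a8 x, a9,
      fun P hP hc => ?_⟩
    have := ws_step hp hh hQ0 hQl rfl hc hP (linker_mono a3 a5) a4 a2 (disjoint_empty_left _)
      (ws_zero hQ0 _)
    rwa [empty_union, ← pow_one (1 - _)] at this
  | succ t ih =>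
    intro R h
    obtain ⟨H, A1, F1, p1, a1, a2, a3, a4, a5, a6, a7⟩ := ih (R + 2 ^ j + 2 ^ j)
      (by rwa [show R + 2 ^ j + 2 ^ j + 2 ^ j + t * (2 * 2 ^ j) =
        R + 2 ^ j + (t + 1) * (2 * 2 ^ j) by ring])
    obtain ⟨Y, A2, F2, p2, b1, b2, b3, -, b5, b6, b7, b8⟩ := add_many hU _ _ a6
    obtain ⟨HL, HR, A3, F3, p3, c1, c2, c3, c4, c5, c6, c7, -, c9⟩ := hU.res A2 F2 p2 R Y j hj b2 b8
      fun y hy => hK.trans (b6 y hy)
    have hmon : ∀ x, x ∉ A → p1 x ≤ p3 x := fun x hx =>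
      (b7 x).trans (c7 x fun h' => hx (a2 (b1 h')))
    have hF : HL ∪ HR ⊆ F \ H := c1.trans (b5.trans a3)
    refine ⟨H ∪ (HL ∪ HR), A3, F3, p3, union_subset a1 (hF.trans sdiff_subset),
      c5.trans (b3.trans a2), sub_two (b5.trans a3) c6, fun x hx hx' => (a4 x hx hx').trans
      (hmon x hx), fun x hx => (a5 x hx).trans (Nat.add_le_add_right (hmon x hx) _), c9,
      fun P hP hc => ?_⟩
    have := ws_step hp hh hQ0 hQl (b2.trans hQ.symm) hc hP (linker_mono c3 c5) c4 c2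
      (disjoint_sdiff.mono_right hF) (a7 Y b1 (b2.trans hQ.symm))
    rwa [pow_succ' _ (t + 1), mul_assoc (1 - _)]

lemma cross (hp : ProjStmt) (hU : UM U l K κ (72 * (l + 1) ^ 2)) (hK : κ ≤ K) {j : ℕ} (hj : j ≤ l)
    {A Q : Finset V} {F : Finset (V × V)} {p : V → ℕ} (hQ : Q.card = 2 ^ j) (hd : Disjoint Q A)
    (n : ℕ) : ∀ R, (∀ q ∈ Q, n * κ ≤ p q) → U A F p (R + n * (72 * (l + 1) ^ 2 * (2 * 2 ^ j))) →
    ∃ H A' F' p', H ⊆ F ∧ A' ⊆ A ∧ F' ⊆ F \ H ∧ (∀ x, x ∉ A → x ∉ Q → p x ≤ p' x) ∧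
      (∀ x, x ∉ A → p x ≤ p' x + n * κ) ∧ U A' F' p' R ∧ ∀ P ⊆ A', P.card = Q.card →
        ∃ I ⊆ P ×ˢ Q, Paths H I ∧ 2 ^ n * ((P ×ˢ Q) \ I).card ≤ Q.card * Q.card := by
  have hT : 0 < 72 * (l + 1) ^ 2 := by positivity
  have hs : 0 < 2 ^ j := by positivity
  have hQ0 : Q.Nonempty := card_pos.1 (by omega)
  have hQl : Q.card ≤ 2 ^ l := hQ ▸ Nat.pow_le_pow_right (by norm_num) hj
  induction n with
  | zero =>
    intro R _ h
    refine ⟨∅, A, F, p, empty_subset _, subset_rfl, by simp, fun _ _ _ => le_rfl,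
      fun _ _ => Nat.le_add_right _ _, by simpa using h, fun P _ hc =>
      ⟨∅, empty_subset _, Paths.empty _, ?_⟩⟩
    simp [hc]
  | succ n ih =>
    intro R hpQ h
    obtain ⟨t, ht⟩ : ∃ t, 72 * (l + 1) ^ 2 = t + 1 := ⟨72 * (l + 1) ^ 2 - 1, by omega⟩
    obtain ⟨H, A1, F1, p1, a1, a2, a3, a4, a5, a6, a7⟩ := ih
      (R + 2 ^ j + 2 ^ j + t * (2 * 2 ^ j))
      (fun q hq => le_trans (Nat.mul_le_mul_right _ (Nat.le_succ n)) (hpQ q hq))
      (by rwa [show R + 2 ^ j + 2 ^ j + t * (2 * 2 ^ j) + n * (72 * (l + 1) ^ 2 * (2 * 2 ^ j)) =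
        R + (n + 1) * (72 * (l + 1) ^ 2 * (2 * 2 ^ j)) by rw [ht]; ring])
    obtain ⟨H', A2, F2, p2, b1, b2, b3, b4, b5, b6, b7⟩ := net_aux hp hU hT hK hj hQ
      (fun q hq => by
        have h1 := hpQ q hq
        have h2 := a5 q (disjoint_left.1 hd hq)
        rw [add_mul] at h1
        omega) t _ a6
    obtain ⟨-, A3, F3, p3, -, -, c3, -, c5, -, c7, c8⟩ := add_many hU _ _ b6
    have hF : H' ⊆ F \ H := b1.trans a3
    refine ⟨H ∪ H', A3, F3, p3, union_subset a1 (hF.trans sdiff_subset), c3.trans (b2.trans a2),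
      c5.trans (sub_two a3 b3), fun x hx hx' => (a4 x hx hx').trans
      ((b4 x (fun h' => hx (a2 h')) hx').trans (c7 x)), fun x hx => ?_, c8, fun P hP hc => ?_⟩
    · have h1 := a5 x hx
      have h2 := b5 x fun h' => hx (a2 h')
      have h3 := c7 x
      rw [add_mul]
      omega
    · obtain ⟨I, i1, i2, i3⟩ := a7 P (hP.trans (c3.trans b2)) hc
      have hw := b7 P (hP.trans c3) hc
      rw [← ht, ← hQ] at hw
      obtain ⟨I', k1, k2, k3⟩ := halving hT hQ0 (pot_end (card_pos.2 hQ0) hQl) hw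
        (sdiff_subset (s := P ×ˢ Q) (t := I))
      refine ⟨I ∪ I', union_subset i1 (k1.trans sdiff_subset),
        i2.union k3 (disjoint_sdiff.mono_right hF), le_trans ?_ i3⟩
      rw [pow_succ, mul_assoc]
      refine Nat.mul_le_mul_left _ (le_trans (Nat.mul_le_mul_left _ (card_le_card ?_)) k2)
      intro e he
      rw [mem_sdiff, mem_union, not_or] at he
      exact mem_sdiff.2 ⟨mem_sdiff.2 ⟨he.1, he.2.1⟩, he.2.2⟩

lemma build (hp : ProjStmt) (hU : UM U l K κ (72 * (l + 1) ^ 2)) (hK : (l + 1) ^ 2 * κ ≤ K)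
    (j : ℕ) : j ≤ l → ∀ A F p R, U A F p (R + 2 ^ j * (1 + j ^ 2 * (72 * (l + 1) ^ 2))) →
    ∃ (L : List V) (H I : Finset (V × V)), ∃ A' F' p', L.length = 2 ^ j ∧ L.Nodup ∧
      (∀ v ∈ L, v ∈ A ∧ v ∉ A' ∧ K ≤ p' v + j ^ 2 * κ) ∧ H ⊆ F ∧ A' ⊆ A ∧ F' ⊆ F \ H ∧
      (∀ x, x ∉ A → p x ≤ p' x) ∧ U A' F' p' R ∧ Paths H I ∧
      L.Pairwise fun a b => (a, b) ∈ I := by
  induction j with
  | zero =>
    intro _ A F p R h
    obtain ⟨z, hz, A', F', p', a1, a2, a3, a4, a5⟩ := hU.add A F p R (by simpa using h)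
    refine ⟨[z], ∅, ∅, A', F', p', rfl, List.nodup_singleton z, fun v hv => ?_, empty_subset _,
      a1.trans (erase_subset _ _), by simpa using a2, fun x _ => a4 x, a5, Paths.empty _,
      List.pairwise_singleton _ _⟩
    rw [List.mem_singleton.1 hv]
    exact ⟨hz, fun h' => notMem_erase z A (a1 h'), a3.trans (Nat.le_add_right _ _)⟩
  | succ j ih =>
    intro hj A F p R h
    have hκ : (j + 1) ^ 2 * κ ≤ (l + 1) ^ 2 * κ :=
      Nat.mul_le_mul_right _ (Nat.pow_le_pow_left (by omega) 2)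
    have hκ' : (j + 1) ^ 2 * κ = j ^ 2 * κ + (2 * j + 1) * κ := by ring
    have hκ1 : κ ≤ (l + 1) ^ 2 * κ := Nat.le_mul_of_pos_left _ (by positivity)
    obtain ⟨LQ, H1, I1, A1, F1, p1, a1, a2, a3, a4, a5, a6, a7, a8, a9, a10⟩ := ih (by omega) A F p
      (R + 2 ^ j * (1 + j ^ 2 * (72 * (l + 1) ^ 2)) +
        (2 * j + 1) * (72 * (l + 1) ^ 2 * (2 * 2 ^ j)))
      (by rwa [show R + 2 ^ j * (1 + j ^ 2 * (72 * (l + 1) ^ 2)) +
        (2 * j + 1) * (72 * (l + 1) ^ 2 * (2 * 2 ^ j)) +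
        2 ^ j * (1 + j ^ 2 * (72 * (l + 1) ^ 2)) =
        R + 2 ^ (j + 1) * (1 + (j + 1) ^ 2 * (72 * (l + 1) ^ 2)) by ring])
    have hQ : LQ.toFinset.card = 2 ^ j := (List.toFinset_card_of_nodup a2).trans a1
    obtain ⟨H2, A2, F2, p2, b1, b2, b3, b4, b5, b6, b7⟩ := cross hp hU (hκ1.trans hK)
      (by omega : j ≤ l) hQ (disjoint_left.2 fun v hv => (a3 v (List.mem_toFinset.1 hv)).2.1)
      (2 * j + 1) _ (fun q hq => by
        have := (a3 q (List.mem_toFinset.1 hq)).2.2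
        omega) a8
    obtain ⟨LP, H3, I3, A3, F3, p3, c1, c2, c3, c4, c5, c6, c7, c8, c9, c10⟩ := ih (by omega) A2 F2
      p2 R b6
    have hP : LP.toFinset.card = 2 ^ j := (List.toFinset_card_of_nodup c2).trans c1
    obtain ⟨I2, i1, i2, i3⟩ := b7 LP.toFinset (fun v hv => (c3 v (List.mem_toFinset.1 hv)).1)
      (hP.trans hQ.symm)
    have hall : LP.toFinset ×ˢ LQ.toFinset ⊆ I2 := by
      rw [← sdiff_eq_empty_iff_subset, ← card_eq_zero]
      rw [hQ, ← pow_add, ← two_mul, pow_succ] at i3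
      by_contra hne
      have h1 := Nat.mul_le_mul_left (2 ^ (2 * j) * 2) (Nat.pos_of_ne_zero hne)
      have h2 : 0 < 2 ^ (2 * j) := by positivity
      omega
    have hF2 : H2 ⊆ F \ H1 := b1.trans a6
    have hF3 : H3 ⊆ F \ (H1 ∪ H2) := c4.trans (sub_two a6 b3)
    refine ⟨LP ++ LQ, H1 ∪ H2 ∪ H3, I1 ∪ I2 ∪ I3, A3, F3, p3, ?_, ?_, fun v hv => ?_,
      union_subset (union_subset a4 (hF2.trans sdiff_subset)) (hF3.trans sdiff_subset),
      c5.trans (b2.trans a5), sub_two (sub_two a6 b3) c6, fun x hx => ?_, c8,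
      (a9.union i2 (disjoint_sdiff.mono_right hF2)).union c9 (disjoint_sdiff.mono_right hF3), ?_⟩
    · rw [List.length_append, a1, c1, pow_succ, mul_two]
    · rw [List.nodup_append]
      exact ⟨c2, a2, fun a ha b hb hab => (a3 b hb).2.1 (b2 (hab ▸ (c3 a ha).1))⟩
    · rcases List.mem_append.1 hv with h' | h'
      · obtain ⟨d1, d2, d3⟩ := c3 v h'
        exact ⟨a5 (b2 d1), d2, by omega⟩
      · obtain ⟨d1, d2, d3⟩ := a3 v h'
        have e1 := b5 v d2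
        have e2 := c7 v fun h'' => d2 (b2 h'')
        exact ⟨d1, fun h'' => d2 (b2 (c5 h'')), by omega⟩
    · exact (a7 x hx).trans ((b4 x (fun h' => hx (a5 h'))
        fun h' => hx (a3 x (List.mem_toFinset.1 h')).1).trans (c7 x fun h' => hx (a5 (b2 h'))))
    · rw [List.pairwise_append]
      refine ⟨c10.imp fun h' => mem_union_right _ h',
        a10.imp fun h' => mem_union_left _ (mem_union_left _ h'), fun a ha b hb => ?_⟩
      exact mem_union_left _ (mem_union_right _ (hall (mem_product.2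
        ⟨List.mem_toFinset.2 ha, List.mem_toFinset.2 hb⟩)))

theorem net : ProjStmt → NetStmt := by
  intro hp V _ _ D l M N K g d hm hN hK hM hg hd
  have hR : 2 ^ l * (1 + l ^ 2 * (72 * (l + 1) ^ 2)) ≤ 100 * (l + 1) ^ 4 * 2 ^ l := by
    rw [mul_comm]
    refine Nat.mul_le_mul_right _ ?_
    have h1 : l ^ 2 * (72 * (l + 1) ^ 2) ≤ (l + 1) ^ 2 * (72 * (l + 1) ^ 2) :=
      Nat.mul_le_mul_right _ (Nat.pow_le_pow_left (by omega) 2)
    have h2 : (l + 1) ^ 2 * (72 * (l + 1) ^ 2) = 72 * (l + 1) ^ 4 := by ring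
    have h3 : 0 < (l + 1) ^ 4 := by positivity
    omega
  obtain ⟨U, hU, A, p, h0⟩ := um_of_mach (T := 72 * (l + 1) ^ 2) hm (by positivity) (by omega) hg
    (hR.trans hN) ((Nat.mul_le_mul_left _ hR).trans (le_trans (le_of_eq (by ring)) hd))
  obtain ⟨L, H, I, -, -, -, a1, a2, -, a4, -, -, -, -, ⟨R, r1, r2⟩, a10⟩ := build hp hU
    (le_trans (by
      rw [show (l + 1) ^ 2 * (8 * (72 * (l + 1) ^ 2) * 2 ^ l) = 576 * ((l + 1) ^ 4 * 2 ^ l) by ring,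
        mul_assoc]
      omega) hK) l le_rfl A D p 0 (by rwa [zero_add])
  have hinj : Function.Injective fun i : Fin (2 ^ l) => L.get (i.cast a1.symm) :=
    (List.nodup_iff_injective_get.1 a2).comp (Fin.cast_injective _)
  have hI : ∀ i j : Fin (2 ^ l), i < j →
      (L.get (i.cast a1.symm), L.get (j.cast a1.symm)) ∈ I := fun i j hij =>
    List.pairwise_iff_get.1 a10 _ _ hij
  refine ⟨_, hinj, fun i j => R (L.get (i.cast a1.symm), L.get (j.cast a1.symm)),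
    fun i j hij => ⟨(r1 _ (hI i j hij)).1.trans a4, (r1 _ (hI i j hij)).2⟩,
    fun i j i' j' h h' hne => r2 _ (hI i j h) _ (hI i' j' h') fun he => hne ?_⟩
  rw [Prod.mk.injEq] at he ⊢
  exact ⟨hinj he.1, hinj he.2⟩

end Pool.Agent.MP_b9875a_co.H33
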