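import Pool.Agent.MP_b9875a_co.H99.Spec

/-!
One stage of the cut-matching game: the tokens and the drop of the potential.
-/

set_option autoImplicit false

namespace Pool.Agent.MP_b9875a_co.H33

open Finset Pool.Agent.MP_b9875a_co.H99.PL

variable {V : Type} [DecidableEq V]

omit [DecidableEq V] in
lemma proj' (hp : ProjStmt) {Y Q : Finset V} {l : ℕ} (hY : Y.card ≤ 2 ^ l) (hQ : Q.card ≤ 2 ^ l)
    (x : V → V → ℝ) (hx : ∀ q ∈ Q, ∑ y ∈ Y, x y q = 0) :
    ∃ al : V → ℝ, ∑ y ∈ Y, al y = 0 ∧ ∑ y ∈ Y, ∑ q ∈ Q, x y q ^ 2 ≤ 2 * ∑ y ∈ Y, al y ^ 2 ∧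
      ∀ y ∈ Y, ∀ y' ∈ Y, (al y - al y') ^ 2 ≤
        6 * ((l : ℝ) + 1) * ∑ q ∈ Q, (x y q - x y' q) ^ 2 := by
  obtain ⟨r, h1, h2⟩ := hp Y Q l (fun y q => x y q) (by simpa) (by simpa)
  refine ⟨fun y => ∑ q : Q, x y q * r q, ?_, ?_, fun y hy y' hy' => ?_⟩
  · rw [sum_comm]
    refine sum_eq_zero fun q _ => ?_
    rw [← sum_mul, hx q q.2, zero_mul]
  · rw [← sum_coe_sort Y fun y => ∑ q ∈ Q, x y q ^ 2,
      ← sum_coe_sort Y fun y => (∑ q : Q, x y q * r q) ^ 2]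
    refine le_trans (le_of_eq ?_) h1
    exact sum_congr rfl fun y _ => (sum_coe_sort Q fun q => x y q ^ 2).symm
  · have h3 := h2 ⟨y, hy⟩ ⟨y', hy'⟩
    rw [← sum_coe_sort Q fun q => (x y q - x y' q) ^ 2, ← sum_sub_distrib]
    simpa only [sub_mul] using h3

lemma low_set {α : Type} [DecidableEq α] (Z : Finset α) (w : α → ℝ) :
    ∀ n ≤ Z.card, ∃ L ⊆ Z, L.card = n ∧ ∃ η, (∀ z ∈ L, w z ≤ η) ∧ ∀ z ∈ Z \ L, η ≤ w z := by
  intro n
  induction n with
  | zero =>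
    intro _
    obtain ⟨η, hη⟩ := (Z.image w).bddBelow
    exact ⟨∅, empty_subset _, rfl, η, by simp, fun z hz =>
      hη (mem_coe.2 (mem_image_of_mem w (mem_sdiff.1 hz).1))⟩
  | succ n ih =>
    intro hn
    obtain ⟨L, hL, hc, η, h1, h2⟩ := ih (by omega)
    have hne : (Z \ L).Nonempty := by
      rw [← card_pos, card_sdiff_of_subset hL]
      omega
    obtain ⟨z, hz, hmin⟩ := exists_min_image (Z \ L) w hne
    refine ⟨insert z L, insert_subset (mem_sdiff.1 hz).1 hL, ?_, w z, fun u hu => ?_,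
      fun u hu => hmin u ?_⟩
    · rw [card_insert_of_notMem (mem_sdiff.1 hz).2, hc]
    · rcases mem_insert.1 hu with h | h
      · rw [h]
      · exact (h1 u h).trans (h2 z hz)
    · rw [mem_sdiff] at hu ⊢
      exact ⟨hu.1, fun h => hu.2 (mem_insert_of_mem h)⟩

lemma fib_fst {β : Type} (P : Finset V) (J : Finset β) (p : V) :
    ((P ×ˢ J).filter fun i => i.1 = p).card = if p ∈ P then J.card else 0 := by
  rw [filter_product_left (fun v => v = p), card_product, filter_eq']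
  split_ifs <;> simp

lemma split (Y : Finset V) (al : V → ℝ) (h : ℕ) : ∃ (η : ℝ) (c : Bool → V → ℕ),
    (∀ y ∈ Y, c true y + c false y = 2 * h) ∧ (∀ b y, y ∉ Y → c b y = 0) ∧
    (∀ b, ∑ y ∈ Y, c b y = Y.card * h) ∧ (∀ y, 0 < c true y → al y ≤ η) ∧
    ∀ y, 0 < c false y → η ≤ al y := by
  have hZ : (Y ×ˢ range (2 * h)).card = Y.card * h + Y.card * h := by
    rw [card_product, card_range]
    ring
  obtain ⟨L, hL, hc, η, h1, h2⟩ := low_set (Y ×ˢ range (2 * h)) (fun z => al z.1) (Y.card * h)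
    (by omega)
  have hsum : ∀ y, (L.filter fun z => z.1 = y).card +
      (((Y ×ˢ range (2 * h)) \ L).filter fun z => z.1 = y).card = if y ∈ Y then 2 * h else 0 := by
    intro y
    rw [← card_union_of_disjoint (disjoint_filter_filter disjoint_sdiff), ← filter_union,
      union_sdiff_of_subset hL, fib_fst, card_range]
  refine ⟨η, fun b y => bif b then (L.filter fun z => z.1 = y).card else
    (((Y ×ˢ range (2 * h)) \ L).filter fun z => z.1 = y).card, fun y hy => ?_, fun b y hy => ?_,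
    fun b => ?_, fun y hy => ?_, fun y hy => ?_⟩
  · simpa [hy] using hsum y
  · have := hsum y
    rw [if_neg hy] at this
    cases b
    · exact (Nat.add_eq_zero_iff.1 this).2
    · exact (Nat.add_eq_zero_iff.1 this).1
  · cases b
    · have := card_eq_sum_card_fiberwise (f := fun z : V × ℕ => z.1)
        (s := (Y ×ˢ range (2 * h)) \ L) (t := Y)
        fun z hz => (mem_product.1 (mem_sdiff.1 hz).1).1
      rw [card_sdiff_of_subset hL] at this
      simp only [cond_false]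
      omega
    · have := card_eq_sum_card_fiberwise (f := fun z : V × ℕ => z.1) (s := L) (t := Y)
        fun z hz => (mem_product.1 (hL hz)).1
      simp only [cond_true]
      omega
  · obtain ⟨z, hz⟩ := card_pos.1 hy
    rw [mem_filter] at hz
    exact hz.2 ▸ h1 z hz.1
  · obtain ⟨z, hz⟩ := card_pos.1 hy
    rw [mem_filter] at hz
    exact hz.2 ▸ h2 z hz.1

lemma exact_fib {ι : Type} {T : Finset ι} {e : ι → V} {c : V → ℕ} {Y : Finset V}
    (h0 : ∀ y, y ∉ Y → c y = 0) (hs : ∑ y ∈ Y, c y = T.card)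
    (hle : ∀ v, (T.filter fun i => e i = v).card ≤ c v) :
    (∀ i ∈ T, e i ∈ Y) ∧ ∀ v ∈ Y, (T.filter fun i => e i = v).card = c v := by
  have h1 : ∀ i ∈ T, e i ∈ Y := by
    intro i hi
    by_contra hn
    have h2 := hle (e i)
    rw [h0 _ hn] at h2
    have h3 : 0 < (T.filter fun j => e j = e i).card := card_pos.2 ⟨i, mem_filter.2 ⟨hi, rfl⟩⟩
    omega
  refine ⟨h1, (sum_eq_sum_iff_of_le fun v _ => hle v).1 ?_⟩
  rw [hs]
  exact (card_eq_sum_card_fiberwise h1).symm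

lemma sum_fib {ι : Type} {T : Finset ι} {e : ι → V} {c : V → ℕ} {Y : Finset V}
    (h1 : ∀ i ∈ T, e i ∈ Y) (h2 : ∀ v ∈ Y, (T.filter fun i => e i = v).card = c v) (f : V → ℝ) :
    ∑ i ∈ T, f (e i) = ∑ y ∈ Y, c y * f y := by
  rw [← sum_fiberwise_of_maps_to h1]
  refine sum_congr rfl fun y hy => ?_
  rw [sum_congr rfl fun i hi => congrArg f (mem_filter.1 hi).2, sum_const, h2 y hy, nsmul_eq_mul]

omit [DecidableEq V] in
/-- The drop of the potential. -/
lemma mix {Y Q P : Finset V} {h : ℕ} (hh : 0 < h) {B η : ℝ} (hB : 0 < B) (x : V → V → ℝ)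
    (al : V → ℝ) (u v : V × ℕ → V)
    (hf : ∀ f : V → ℝ, ∑ i ∈ P ×ˢ range h, (f (u i) + f (v i)) = 2 * h * ∑ y ∈ Y, f y)
    (h0 : ∑ y ∈ Y, al y = 0) (h1 : ∑ y ∈ Y, ∑ q ∈ Q, x y q ^ 2 ≤ 2 * ∑ y ∈ Y, al y ^ 2)
    (h2 : ∀ i ∈ P ×ˢ range h, (al (u i) - al (v i)) ^ 2 ≤
      B * ∑ q ∈ Q, (x (u i) q - x (v i) q) ^ 2)
    (h3 : ∀ i ∈ P ×ˢ range h, al (u i) ≤ η ∧ η ≤ al (v i)) :
    ∑ p ∈ P, ∑ q ∈ Q, ((∑ k ∈ range h, (x (u (p, k)) q + x (v (p, k)) q)) / (2 * h)) ^ 2 ≤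
      (1 - 1 / (4 * B)) * ∑ y ∈ Y, ∑ q ∈ Q, x y q ^ 2 := by
  have hh' : (0 : ℝ) < h := by exact_mod_cast hh
  set Φ := ∑ y ∈ Y, ∑ q ∈ Q, x y q ^ 2 with hΦ
  set G := ∑ i ∈ P ×ˢ range h, ∑ q ∈ Q, (x (u i) q - x (v i) q) ^ 2 with hG
  have a1 : ∀ p q, ((∑ k ∈ range h, (x (u (p, k)) q + x (v (p, k)) q)) / (2 * h)) ^ 2 ≤
      (∑ k ∈ range h, (x (u (p, k)) q + x (v (p, k)) q) ^ 2) / (4 * h) := by
    intro p q
    have := sq_sum_le_card_mul_sum_sq (s := range h)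
      (f := fun k => x (u (p, k)) q + x (v (p, k)) q)
    rw [card_range] at this
    rw [div_pow, div_le_div_iff₀ (by positivity) (by positivity)]
    nlinarith
  have a2 : ∑ p ∈ P, ∑ q ∈ Q, (∑ k ∈ range h, (x (u (p, k)) q + x (v (p, k)) q) ^ 2) / (4 * h) =
      (2 * (2 * h * Φ) - G) / (4 * h) := by
    simp only [← sum_div]
    congr 1
    rw [hΦ, ← hf fun y => ∑ q ∈ Q, x y q ^ 2, hG, mul_sum, ← sum_sub_distrib, sum_product]
    refine sum_congr rfl fun p _ => ?_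
    rw [sum_comm]
    refine sum_congr rfl fun k _ => ?_
    rw [← sum_add_distrib, mul_sum, ← sum_sub_distrib]
    exact sum_congr rfl fun q _ => by ring
  have a3 : 2 * h * ∑ y ∈ Y, (al y - η) ^ 2 ≤ B * G := by
    rw [← hf fun y => (al y - η) ^ 2, hG, mul_sum]
    refine sum_le_sum fun i hi => le_trans ?_ (h2 i hi)
    nlinarith [mul_nonneg (sub_nonneg.2 (h3 i hi).1) (sub_nonneg.2 (h3 i hi).2)]
  have a4 : ∑ y ∈ Y, al y ^ 2 ≤ ∑ y ∈ Y, (al y - η) ^ 2 := by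
    have : ∑ y ∈ Y, (al y - η) ^ 2 =
        ∑ y ∈ Y, al y ^ 2 - 2 * η * ∑ y ∈ Y, al y + ∑ _y ∈ Y, η ^ 2 := by
      rw [mul_sum, ← sum_sub_distrib, ← sum_add_distrib]
      exact sum_congr rfl fun y _ => by ring
    rw [this, h0]
    have : 0 ≤ ∑ _y ∈ Y, η ^ 2 := sum_nonneg fun _ _ => sq_nonneg _
    linarith
  have a5 : h * Φ / B ≤ G := by
    rw [div_le_iff₀ hB]
    nlinarith
  refine (sum_le_sum fun p _ => sum_le_sum fun q _ => a1 p q).trans ?_
  rw [a2, div_le_iff₀ (by positivity)]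
  have : (1 - 1 / (4 * B)) * Φ * (4 * h) = 2 * (2 * h * Φ) - h * Φ / B := by
    field_simp
    ring
  linarith

/-- The tokens of one stage. -/
lemma tokens (hp : ProjStmt) {Y Q P A : Finset V} {HL HR : Finset (V × V)} {h l : ℕ} (hh : 0 < h)
    (hY : Y.card ≤ 2 ^ l) (hQ : Q.card ≤ 2 ^ l) (hP : P.card = Y.card) (hPA : P ⊆ A)
    (hL : Linker HL A Y (2 * h)) (hR : Linker HR A Y (2 * h)) (hd : Disjoint HL HR)
    (x : V → V → ℝ) (hx : ∀ q ∈ Q, ∑ y ∈ Y, x y q = 0) :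
    ∃ (ι : Type) (Tk : Finset ι) (st en : ι → V) (pa : ι → Finset (V × V)),
      (∀ i ∈ Tk, st i ∈ P ∧ en i ∈ Y ∧ pa i ⊆ HL ∪ HR ∧ Rch (pa i) (st i) (en i)) ∧
      (∀ i ∈ Tk, ∀ j ∈ Tk, i ≠ j → Disjoint (pa i) (pa j)) ∧
      (∀ p ∈ P, (Tk.filter fun i => st i = p).card = 2 * h) ∧
      (∀ y ∈ Y, (Tk.filter fun i => en i = y).card = 2 * h) ∧
      ∑ p ∈ P, ∑ q ∈ Q, ((∑ i ∈ Tk.filter fun i => st i = p, x (en i) q) / (2 * h)) ^ 2 ≤
        (1 - 1 / (4 * (6 * ((l : ℝ) + 1)))) * ∑ y ∈ Y, ∑ q ∈ Q, x y q ^ 2 := by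
  obtain ⟨al, h0, h1, h2⟩ := proj' hp hY hQ x hx
  obtain ⟨η, c, c1, c2, c3, c4, c5⟩ := split Y al h
  have hcard : (P ×ˢ range h).card = Y.card * h := by rw [card_product, card_range, hP]
  have hH : ∀ b, Linker (bif b then HL else HR) A Y (2 * h) := fun b => by
    cases b
    · exact hR
    · exact hL
  have hr : ∀ b, Routed (bif b then HL else HR) (P ×ˢ range h) (fun i => i.1) (c b) := by
    intro b
    refine hH b _ _ _ _ (fun i hi => hPA (mem_product.1 hi).1) (fun v => ?_) (fun y => ?_) (c2 b)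
      (by rw [hcard, c3])
    · rw [fib_fst, card_range]
      split_ifs <;> omega
    · by_cases hy : y ∈ Y
      · have := c1 y hy
        cases b <;> omega
      · rw [c2 b y hy]
        omega
  choose e pa r1 r2 r3 using hr
  have hf := fun b => exact_fib (c2 b) (by rw [hcard, c3]) (r3 b)
  refine ⟨V × ℕ × Bool, P ×ˢ (range h ×ˢ univ), fun i => i.1, fun i => e i.2.2 (i.1, i.2.1),
    fun i => pa i.2.2 (i.1, i.2.1), fun i hi => ?_, fun i hi j hj hij => ?_, fun p hp => ?_,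
    fun y hy => ?_, ?_⟩
  · have hi' : (i.1, i.2.1) ∈ P ×ˢ range h := by
      simp only [mem_product] at hi ⊢
      exact ⟨hi.1, hi.2.1⟩
    refine ⟨(mem_product.1 hi).1, (hf _).1 _ hi', (r1 _ _ hi').1.trans ?_, (r1 _ _ hi').2⟩
    cases i.2.2
    · exact subset_union_right
    · exact subset_union_left
  · obtain ⟨p, k, b⟩ := i
    obtain ⟨p', k', b'⟩ := j
    have hi' : (p, k) ∈ P ×ˢ range h := by
      simp only [mem_product] at hi ⊢
      exact ⟨hi.1, hi.2.1⟩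
    have hj' : (p', k') ∈ P ×ˢ range h := by
      simp only [mem_product] at hj ⊢
      exact ⟨hj.1, hj.2.1⟩
    by_cases hb : b = b'
    · subst hb
      refine r2 b _ hi' _ hj' fun hc => hij ?_
      rw [Prod.mk.injEq] at hc
      rw [hc.1, hc.2]
    · have k1 := (r1 b _ hi').1
      have k2 := (r1 b' _ hj').1
      cases b <;> cases b'
      · exact absurd rfl hb
      · exact (hd.symm.mono k1 k2 :)
      · exact (hd.mono k1 k2 :)
      · exact absurd rfl hb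
  · rw [fib_fst, if_pos hp, card_product, card_range, card_univ, Fintype.card_bool, mul_comm]
  · rw [← c1 y hy, ← (hf true).2 y hy, ← (hf false).2 y hy]
    simp only [card_filter, sum_product, Fintype.sum_bool, sum_add_distrib]
  · refine le_trans (le_of_eq ?_) (mix (P := P) (η := η) hh (by positivity) x al (e true) (e false)
      (fun f => ?_) h0 h1 (fun i hi => h2 _ ((hf true).1 i hi) _ ((hf false).1 i hi))
      fun i hi => ⟨c4 _ ?_, c5 _ ?_⟩)
    · refine sum_congr rfl fun p hp => sum_congr rfl fun q _ => ?_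
      rw [filter_product_left (fun v => v = p), filter_eq', if_pos hp]
      simp only [sum_product, sum_singleton, Fintype.sum_bool]
    · rw [sum_add_distrib, sum_fib (hf true).1 (hf true).2, sum_fib (hf false).1 (hf false).2,
        ← sum_add_distrib, mul_sum]
      refine sum_congr rfl fun y hy => ?_
      have : (c true y : ℝ) + c false y = 2 * h := by exact_mod_cast c1 y hy
      rw [← add_mul, this]
    · refine lt_of_lt_of_le (card_pos.2 ⟨i, ?_⟩) (r3 true (e true i))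
      exact mem_filter.2 ⟨hi, rfl⟩
    · refine lt_of_lt_of_le (card_pos.2 ⟨i, ?_⟩) (r3 false (e false i))
      exact mem_filter.2 ⟨hi, rfl⟩

end Pool.Agent.MP_b9875a_co.H33
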