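import Pool.Agent.MP_b9875a_co.H33.Stage

/-!
Walk systems, the stage step and the halving lemma.
-/

set_option autoImplicit false

namespace Pool.Agent.MP_b9875a_co.H33

open Finset Pool.Agent.MP_b9875a_co.H99.PL

variable {V : Type} [DecidableEq V]

/-- A system of walks from `Y` to `Q` inside `H` after `t` stages, with potential at most `φ`. -/
def WS (H : Finset (V × V)) (Y Q : Finset V) (a t : ℕ) (φ : ℝ) : Prop :=
  ∃ (W : Type) (S : Finset W) (src dst : W → V) (arcs : W → Finset (V × V)),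
    (∀ w ∈ S, src w ∈ Y ∧ arcs w ⊆ H ∧ Rch (arcs w) (src w) (dst w)) ∧
    (∀ y ∈ Y, (S.filter fun w => src w = y).card ≤ a ^ t) ∧
    (∀ q ∈ Q, (S.filter fun w => dst w = q).card = a ^ t) ∧
    (∀ w ∈ S, a * (S.filter fun w' => ¬ Disjoint (arcs w) (arcs w')).card ≤ t * a ^ t) ∧
    ∑ y ∈ Y, ∑ q ∈ Q,
      (((S.filter fun w => src w = y ∧ dst w = q).card : ℝ) / a ^ t - 1 / Q.card) ^ 2 ≤ φ

/-- The pairs of `I` are joined by pairwise disjoint arc sets inside `H`. -/
def Paths (H I : Finset (V × V)) : Prop :=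
  ∃ R : V × V → Finset (V × V), (∀ e ∈ I, R e ⊆ H ∧ Rch (R e) e.1 e.2) ∧
    ∀ e ∈ I, ∀ e' ∈ I, e ≠ e' → Disjoint (R e) (R e')

omit [DecidableEq V] in
lemma rch_mono {A B : Finset (V × V)} (h : A ⊆ B) {a b : V} (hr : Rch A a b) : Rch B a b := by
  induction hr with
  | refl => exact Relation.ReflTransGen.refl
  | tail _ h2 ih => exact Relation.ReflTransGen.tail ih (h h2)

omit [DecidableEq V] in
lemma Paths.empty (H : Finset (V × V)) : Paths H ∅ :=
  ⟨fun _ => ∅, by simp, by simp⟩

lemma Paths.union {H H' I I' : Finset (V × V)} (h : Paths H I) (h' : Paths H' I')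
    (hd : Disjoint H H') : Paths (H ∪ H') (I ∪ I') := by
  obtain ⟨R, r1, r2⟩ := h
  obtain ⟨R', s1, s2⟩ := h'
  refine ⟨fun e => if e ∈ I then R e else R' e, fun e he => ?_, fun e he e' he' hne => ?_⟩
  · by_cases h : e ∈ I
    · simp only [if_pos h]
      exact ⟨(r1 e h).1.trans subset_union_left, (r1 e h).2⟩
    · simp only [if_neg h]
      have h2 := (mem_union.1 he).resolve_left h
      exact ⟨(s1 e h2).1.trans subset_union_right, (s1 e h2).2⟩
  · by_cases h : e ∈ I <;> by_cases h' : e' ∈ I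
    · simp only [if_pos h, if_pos h']
      exact r2 e h e' h' hne
    · simp only [if_pos h, if_neg h']
      exact hd.mono (r1 e h).1 (s1 e' ((mem_union.1 he').resolve_left h')).1
    · simp only [if_neg h, if_pos h']
      exact hd.symm.mono (s1 e ((mem_union.1 he).resolve_left h)).1 (r1 e' h').1
    · simp only [if_neg h, if_neg h']
      exact s2 e ((mem_union.1 he).resolve_left h) e' ((mem_union.1 he').resolve_left h') hne

lemma ws_zero {Q : Finset V} (hQ : Q.Nonempty) (a : ℕ) : WS ∅ Q Q a 0 Q.card := by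
  have hs : (0 : ℝ) < Q.card := by exact_mod_cast card_pos.2 hQ
  refine ⟨V, Q, id, id, fun _ => ∅, fun w hw => ⟨hw, subset_rfl, Relation.ReflTransGen.refl⟩,
    fun y hy => ?_, fun q hq => ?_, fun w _ => by simp, ?_⟩
  · simp only [id, filter_eq', if_pos hy, card_singleton, pow_zero, le_refl]
  · simp only [id, filter_eq', if_pos hq, card_singleton, pow_zero]
  · have h1 : ∀ y ∈ Q, ∑ q ∈ Q,
        (((Q.filter fun w => id w = y ∧ id w = q).card : ℝ) / (a : ℝ) ^ 0 - 1 / Q.card) ^ 2 ≤
          1 := by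
      intro y hy
      have h2 : ∀ q ∈ Q,
          (((Q.filter fun w => id w = y ∧ id w = q).card : ℝ) / (a : ℝ) ^ 0 - 1 / Q.card) ^ 2 =
          (if y = q then 1 - 2 / (Q.card : ℝ) else 0) + (1 / Q.card) ^ 2 := by
        intro q _
        split_ifs with h
        · subst h
          simp only [id, and_self, filter_eq', if_pos hy, card_singleton, pow_zero]
          push_cast
          ring
        · rw [filter_false_of_mem fun w _ hw => h (hw.1.symm.trans hw.2)]
          simp
      rw [sum_congr rfl h2, sum_add_distrib, sum_ite_eq, if_pos hy, sum_const, nsmul_eq_mul]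
      have : (Q.card : ℝ) * (1 / Q.card) ^ 2 = 1 / Q.card := by field_simp
      rw [this]
      have h3 : (2 : ℝ) / Q.card = 2 * (1 / Q.card) := by ring
      have h4 : (0 : ℝ) < 1 / Q.card := by positivity
      linarith
    refine (sum_le_sum h1).trans ?_
    simp

lemma card_left {ι W : Type} (Tk : Finset ι) (S : Finset W) (en : ι → V) (src : W → V)
    (p : ι → Prop) (q : W → Prop) [DecidablePred p] [DecidablePred q] :
    (((Tk ×ˢ S).filter fun z => src z.2 = en z.1).filter fun z => p z.1 ∧ q z.2).card =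
      ∑ i ∈ Tk.filter p, (S.filter fun w => src w = en i ∧ q w).card := by
  rw [filter_filter, card_filter, sum_product, sum_filter]
  refine sum_congr rfl fun i _ => ?_
  by_cases h : p i
  · simp only [h, true_and, if_true, card_filter]
  · simp [h]

lemma card_right {ι W : Type} (Tk : Finset ι) (S : Finset W) (en : ι → V) (src : W → V)
    (q : W → Prop) [DecidablePred q] :
    (((Tk ×ˢ S).filter fun z => src z.2 = en z.1).filter fun z => q z.2).card =
      ∑ w ∈ S.filter q, (Tk.filter fun i => en i = src w).card := by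
  rw [filter_filter, card_filter, sum_product_right, sum_filter]
  refine sum_congr rfl fun w _ => ?_
  by_cases h : q w
  · simp only [h, and_true, if_true, card_filter, eq_comm]
  · simp [h]

lemma ws_step (hp : ProjStmt) {Y Q P A : Finset V} {H HL HR : Finset (V × V)} {h l t : ℕ} {φ : ℝ}
    (hh : 0 < h) (hQ0 : Q.Nonempty) (hQ : Q.card ≤ 2 ^ l) (hY : Y.card = Q.card)
    (hP : P.card = Q.card) (hPA : P ⊆ A) (hL : Linker HL A Y (2 * h))
    (hR : Linker HR A Y (2 * h)) (hd : Disjoint HL HR) (hd' : Disjoint H (HL ∪ HR))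
    (hw : WS H Y Q (2 * h) t φ) :
    WS (H ∪ (HL ∪ HR)) P Q (2 * h) (t + 1) ((1 - 1 / (4 * (6 * ((l : ℝ) + 1)))) * φ) := by
  obtain ⟨W, S, src, dst, arcs, w1, w2, w3, w4, w5⟩ := hw
  have hs : (0 : ℝ) < Q.card := by exact_mod_cast card_pos.2 hQ0
  have ha : (0 : ℝ) < ((2 * h : ℕ) : ℝ) := by exact_mod_cast (by omega : 0 < 2 * h)
  obtain ⟨ι, Tk, st, en, pa, t1, t2, t3, t4, t5⟩ := tokens hp hh (hY ▸ hQ) hQ (hP.trans hY.symm)
    hPA hL hR hd (fun y q => ((S.filter fun w => src w = y ∧ dst w = q).card : ℝ) /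
      ((2 * h : ℕ) : ℝ) ^ t - 1 / Q.card) (fun q hq => by
      have h1 := card_eq_sum_card_fiberwise (f := src) (s := S.filter fun w => dst w = q) (t := Y)
        fun w hw => (w1 w (mem_filter.1 hw).1).1
      simp only [filter_filter, w3 q hq, and_comm (a := dst _ = q)] at h1
      rw [sum_sub_distrib, ← sum_div, ← Nat.cast_sum, ← h1, sum_const, nsmul_eq_mul, hY,
        Nat.cast_pow, div_self (pow_pos ha t).ne', mul_one_div, div_self hs.ne', sub_self])
  have : DecidableEq ι := Classical.decEq ι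
  have : DecidableEq W := Classical.decEq W
  refine ⟨ι × W, (Tk ×ˢ S).filter fun z => src z.2 = en z.1, fun z => st z.1, fun z => dst z.2,
    fun z => pa z.1 ∪ arcs z.2, fun z hz => ?_, fun p hp => ?_, fun q hq => ?_, fun z hz => ?_, ?_⟩
  · simp only [mem_filter, mem_product] at hz
    obtain ⟨a1, -, a3, a4⟩ := t1 _ hz.1.1
    obtain ⟨-, b2, b3⟩ := w1 _ hz.1.2
    refine ⟨a1, union_subset (a3.trans subset_union_right) (b2.trans subset_union_left), ?_⟩
    rw [hz.2] at b3
    exact (rch_mono subset_union_left a4).trans (rch_mono subset_union_right b3)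
  · have := card_left Tk S en src (fun i => st i = p) fun _ => True
    simp only [and_true] at this
    rw [this, pow_succ', ← t3 p hp, ← smul_eq_mul]
    refine sum_le_card_nsmul _ _ _ fun i hi => ?_
    rw [t3 p hp]
    exact w2 _ (t1 i (mem_filter.1 hi).1).2.1
  · rw [card_right Tk S en src fun w => dst w = q,
      sum_congr rfl fun w hw => t4 _ (w1 w (mem_filter.1 hw).1).1, sum_const, w3 q hq, smul_eq_mul,
      pow_succ]
  · simp only [mem_filter, mem_product] at hz
    have hsub : (((Tk ×ˢ S).filter fun z => src z.2 = en z.1).filter fun z' =>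
        ¬ Disjoint (pa z.1 ∪ arcs z.2) (pa z'.1 ∪ arcs z'.2)) ⊆
        (((Tk ×ˢ S).filter fun z => src z.2 = en z.1).filter fun z' => z'.1 = z.1 ∧ True) ∪
        (((Tk ×ˢ S).filter fun z => src z.2 = en z.1).filter fun z' =>
          ¬ Disjoint (arcs z.2) (arcs z'.2)) := by
      intro z' hz'
      rw [mem_filter] at hz'
      by_cases h1 : z'.1 = z.1
      · exact mem_union_left _ (mem_filter.2 ⟨hz'.1, h1, trivial⟩)
      refine mem_union_right _ (mem_filter.2 ⟨hz'.1, fun h2 => hz'.2 ?_⟩)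
      have h3 := hz'.1
      simp only [mem_filter, mem_product] at h3
      rw [disjoint_union_left, disjoint_union_right, disjoint_union_right]
      exact ⟨⟨t2 _ hz.1.1 _ h3.1.1 (Ne.symm h1),
        hd'.symm.mono (t1 _ hz.1.1).2.2.1 (w1 _ h3.1.2).2.1⟩,
        hd'.mono (w1 _ hz.1.2).2.1 (t1 _ h3.1.1).2.2.1, h2⟩
    have h4 := (card_le_card hsub).trans (card_union_le _ _)
    rw [card_left Tk S en src (fun i => i = z.1) fun _ => True, filter_eq', if_pos hz.1.1,
      sum_singleton, card_right Tk S en src fun w => ¬ Disjoint (arcs z.2) (arcs w),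
      sum_congr rfl fun w hw => t4 _ (w1 w (mem_filter.1 hw).1).1, sum_const, smul_eq_mul] at h4
    simp only [and_true] at h4
    have h5 := w2 _ (t1 _ hz.1.1).2.1
    have h6 := w4 _ hz.1.2
    calc _ ≤ 2 * h * ((2 * h) ^ t + t * (2 * h) ^ t) := by
          refine Nat.mul_le_mul_left _ (h4.trans (add_le_add h5 ?_))
          rwa [mul_comm]
      _ = _ := by ring
  · have hρ : (0 : ℝ) ≤ 1 - 1 / (4 * (6 * ((l : ℝ) + 1))) := by
      have : (0 : ℝ) ≤ l := Nat.cast_nonneg l
      rw [sub_nonneg, div_le_one (by positivity)]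
      linarith
    refine le_trans (le_of_eq ?_) (t5.trans (mul_le_mul_of_nonneg_left w5 hρ))
    refine sum_congr rfl fun p hp => sum_congr rfl fun q _ => ?_
    rw [card_left Tk S en src (fun i => st i = p) fun w => dst w = q, sum_sub_distrib, ← sum_div,
      sum_const, t3 p hp, nsmul_eq_mul, Nat.cast_sum]
    congr 1
    push_cast at ha ⊢
    field_simp
    ring

lemma halving {H : Finset (V × V)} {P Q : Finset V} {T : ℕ} {φ : ℝ} (hT : 0 < T)
    (hQ0 : Q.Nonempty) (hφ : φ ≤ (1 / (2 * Q.card)) ^ 2)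
    (hw : WS H P Q (2 * (2 * Q.card * T)) T φ) {I : Finset (V × V)} (hI : I ⊆ P ×ˢ Q) :
    ∃ I' ⊆ I, 2 * (I \ I').card ≤ I.card ∧ Paths H I' := by
  classical
  obtain ⟨W, S, src, dst, arcs, w1, -, -, w4, w5⟩ := hw
  have hs' : 0 < Q.card := card_pos.2 hQ0
  have hs : (0 : ℝ) < Q.card := by exact_mod_cast hs'
  set a := 2 * (2 * Q.card * T) with ha
  have ha0 : 0 < a ^ T := by positivity
  have hcnt : ∀ e ∈ I, a ^ T ≤ 2 * Q.card * (S.filter fun w => (src w, dst w) = e).card := by
    intro e he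
    obtain ⟨h1, h2⟩ := mem_product.1 (hI he)
    have h3 := (single_le_sum (f := fun q => (((S.filter fun w => src w = e.1 ∧ dst w = q).card :
      ℝ) / (a : ℝ) ^ T - 1 / Q.card) ^ 2) (fun _ _ => sq_nonneg _) h2).trans
      ((single_le_sum (f := fun y => ∑ q ∈ Q, (((S.filter fun w => src w = y ∧ dst w = q).card :
      ℝ) / (a : ℝ) ^ T - 1 / Q.card) ^ 2) (fun _ _ => sum_nonneg fun _ _ => sq_nonneg _)
      h1).trans (w5.trans hφ))
    have h4 := (abs_le.1 (abs_le_of_sq_le_sq h3 (by positivity))).1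
    have h5 : (0 : ℝ) < (a : ℝ) ^ T := by exact_mod_cast ha0
    have h6 : (1 : ℝ) / (2 * Q.card) ≤
        ((S.filter fun w => src w = e.1 ∧ dst w = e.2).card : ℝ) / (a : ℝ) ^ T := by
      have : (1 : ℝ) / Q.card = 2 * (1 / (2 * Q.card)) := by field_simp
      linarith
    rw [div_le_div_iff₀ (by positivity) h5, one_mul, mul_comm] at h6
    simp only [Prod.ext_iff]
    exact_mod_cast h6
  let good : Finset (V × V) → Prop := fun J => ∃ R : V × V → Finset (V × V),
    (∀ e ∈ J, ∃ w ∈ S, (src w, dst w) = e ∧ R e = arcs w) ∧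
    ∀ e ∈ J, ∀ e' ∈ J, e ≠ e' → Disjoint (R e) (R e')
  obtain ⟨J, hJ, hmax⟩ := exists_max_image (I.powerset.filter good) card
    ⟨∅, mem_filter.2 ⟨empty_mem_powerset _, fun _ => ∅, by simp, by simp⟩⟩
  obtain ⟨hJI, R, r1, r2⟩ := mem_filter.1 hJ
  rw [mem_powerset] at hJI
  refine ⟨J, hJI, ?_, R, fun e he => ?_, r2⟩
  · have hsub : (S.filter fun w => (src w, dst w) ∈ I \ J) ⊆
        J.biUnion fun e => S.filter fun w => ¬ Disjoint (R e) (arcs w) := by
      intro w hw
      rw [mem_filter, mem_sdiff] at hw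
      by_contra hn
      have hdis : ∀ e ∈ J, Disjoint (R e) (arcs w) := fun e he => by
        by_contra h
        exact hn (mem_biUnion.2 ⟨e, he, mem_filter.2 ⟨hw.1, h⟩⟩)
      have hne : ∀ e ∈ J, e ≠ (src w, dst w) := fun e he h => hw.2.2 (h ▸ he)
      have h7 := hmax (insert (src w, dst w) J) (mem_filter.2
        ⟨mem_powerset.2 (insert_subset hw.2.1 hJI),
          fun e => if e = (src w, dst w) then arcs w else R e, fun e he => ?_,
          fun e he e' he' hee => ?_⟩)
      · rw [card_insert_of_notMem hw.2.2] at h7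
        omega
      · rcases mem_insert.1 he with h | h
        · exact ⟨w, hw.1, h.symm, if_pos h⟩
        · obtain ⟨w', a1, a2, a3⟩ := r1 e h
          exact ⟨w', a1, a2, (if_neg (hne e h)).trans a3⟩
      · rcases mem_insert.1 he with h | h <;> rcases mem_insert.1 he' with h' | h'
        · exact absurd (h.trans h'.symm) hee
        · simp only [if_pos h, if_neg (hne e' h')]
          exact (hdis e' h').symm
        · simp only [if_pos h', if_neg (hne e h)]
          exact hdis e h
        · simp only [if_neg (hne e h), if_neg (hne e' h')]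
          exact r2 e h e' h' hee
    have h8 : a * (S.filter fun w => (src w, dst w) ∈ I \ J).card ≤ I.card * (T * a ^ T) := by
      refine (Nat.mul_le_mul_left _ ((card_le_card hsub).trans card_biUnion_le)).trans ?_
      rw [mul_sum]
      refine (sum_le_card_nsmul _ _ (T * a ^ T) fun e he => ?_).trans ?_
      · obtain ⟨w, a1, -, a3⟩ := r1 e he
        rw [a3]
        exact w4 w a1
      · exact Nat.mul_le_mul_right _ (card_le_card hJI)
    have h9 : (I \ J).card * a ^ T ≤
        2 * Q.card * (S.filter fun w => (src w, dst w) ∈ I \ J).card := by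
      rw [card_eq_sum_card_fiberwise (f := fun w => (src w, dst w))
        (s := S.filter fun w => (src w, dst w) ∈ I \ J) (t := I \ J)
        fun w hw => (mem_filter.1 hw).2, mul_sum, ← smul_eq_mul]
      refine card_nsmul_le_sum _ _ _ fun e he => (hcnt e (mem_sdiff.1 he).1).trans ?_
      refine Nat.mul_le_mul_left _ (card_le_card fun w hw => ?_)
      rw [mem_filter] at hw
      exact mem_filter.2 ⟨mem_filter.2 ⟨hw.1, hw.2 ▸ he⟩, hw.2⟩
    refine Nat.le_of_mul_le_mul_right (c := T * a ^ T) (le_trans ?_ h8) (Nat.mul_pos hT ha0)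
    calc 2 * (I \ J).card * (T * a ^ T) = 2 * T * ((I \ J).card * a ^ T) := by ring
      _ ≤ 2 * T * (2 * Q.card * (S.filter fun w => (src w, dst w) ∈ I \ J).card) :=
        Nat.mul_le_mul_left _ h9
      _ = _ := by
        rw [ha]
        ring
  · obtain ⟨w, a1, a2, a3⟩ := r1 e he
    rw [a3, ← a2]
    exact (w1 w a1).2

lemma pot_end {l s : ℕ} (hs0 : 0 < s) (hs : s ≤ 2 ^ l) :
    (1 - 1 / (4 * (6 * ((l : ℝ) + 1)))) ^ (72 * (l + 1) ^ 2) * s ≤ (1 / (2 * (s : ℝ))) ^ 2 := by
  have hl : (0 : ℝ) ≤ l := Nat.cast_nonneg l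
  have hρ : (0 : ℝ) ≤ 1 - 1 / (4 * (6 * ((l : ℝ) + 1))) := by
    rw [sub_nonneg, div_le_one (by positivity)]
    linarith
  have h1 : (1 - 1 / (4 * (6 * ((l : ℝ) + 1)))) ^ (24 * (l + 1)) ≤ 1 / 2 := by
    refine (pow_le_pow_left₀ hρ (Real.one_sub_le_exp_neg _) _).trans ?_
    rw [← Real.exp_nat_mul]
    have : ((24 * (l + 1) : ℕ) : ℝ) * -(1 / (4 * (6 * ((l : ℝ) + 1)))) = -1 := by
      push_cast
      field_simp
      ring
    rw [this, Real.exp_neg, one_div]
    exact inv_anti₀ (by norm_num) (by linarith [Real.add_one_le_exp (1 : ℝ)])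
  have h2 : (1 - 1 / (4 * (6 * ((l : ℝ) + 1)))) ^ (72 * (l + 1) ^ 2) ≤
      (1 / 2) ^ (3 * (l + 1)) := by
    rw [show 72 * (l + 1) ^ 2 = 24 * (l + 1) * (3 * (l + 1)) by ring, pow_mul]
    exact pow_le_pow_left₀ (pow_nonneg hρ _) h1 _
  have hs1 : (0 : ℝ) < s := by exact_mod_cast hs0
  have hs2 : (s : ℝ) ≤ 2 ^ l := by exact_mod_cast hs
  refine (mul_le_mul_of_nonneg_right h2 hs1.le).trans ?_
  have h3 : (s : ℝ) ^ 3 ≤ (2 ^ l) ^ 3 := pow_le_pow_left₀ hs1.le hs2 3
  have h4 : ((1 : ℝ) / 2) ^ (3 * (l + 1)) = 1 / (8 * (2 ^ l) ^ 3) := by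
    rw [one_div_pow, mul_add, pow_add, mul_comm 3 l, pow_mul]
    norm_num [mul_comm]
  rw [h4, div_pow, one_div_mul_eq_div, div_le_div_iff₀ (by positivity) (by positivity)]
  nlinarith [pow_pos hs1 3]

end Pool.Agent.MP_b9875a_co.H33
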